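import Pool.Agent.R877.RN.Stm2

/-!
Project RN, piece ZSTEP.
-/

namespace R877.RN
open Matrix Filter Topology

namespace ZS

theorem RF_smul {ι : Type} [Fintype ι] (c : ι → ι → ι → ℝ) (r : ℝ) (x : ι → ℝ) :
    RF c (fun i => r * x i) = r ^ 2 * RF c x := by
  unfold RF
  have e1 : ∀ i k, ∑ p, r * x p * c p i k = r * ∑ p, x p * c p i k := by
    intro i k
    rw [Finset.mul_sum]
    exact Finset.sum_congr rfl fun p _ => by ring
  have e2 : ∀ i j, ∑ k, r * x k * c i j k = r * ∑ k, x k * c i j k := by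
    intro i j
    rw [Finset.mul_sum]
    exact Finset.sum_congr rfl fun p _ => by ring
  have e3 : ∀ a, ∑ p, ∑ q, r * x p * c a p q * (r * x q) =
      r ^ 2 * ∑ p, ∑ q, x p * c a p q * x q := by
    intro a
    simp only [Finset.mul_sum]
    exact Finset.sum_congr rfl fun p _ => Finset.sum_congr rfl fun q _ => by ring
  simp only [e1, e2, e3, mul_pow]
  have e4 : ∀ i k, r * (∑ p, x p * c p i k) * (r * ∑ p, x p * c p k i) =
      r ^ 2 * ((∑ p, x p * c p i k) * ∑ p, x p * c p k i) := fun i k => by ring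
  have e5 : ∀ a, (∑ i, c a i i) * (r ^ 2 * ∑ p, ∑ q, x p * c a p q * x q) =
      r ^ 2 * ((∑ i, c a i i) * ∑ p, ∑ q, x p * c a p q * x q) := fun a => by ring
  simp only [e4, e5, ← Finset.mul_sum]
  ring

theorem RF_cont {ι : Type} [Fintype ι] (c : ι → ι → ι → ℝ) : Continuous (RF c) := by
  unfold RF
  fun_prop

theorem RF_zero {ι : Type} [Fintype ι] (c : ι → ι → ι → ℝ) : RF c (fun _ => 0) = 0 := by
  have h := RF_smul c 0 (fun _ => 0)
  simpa using h

theorem qf_smul {n : ℕ} (A : Mat n) (r : ℝ) (x : Fin n → ℝ) :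
    qf A (fun i => r * x i) = r ^ 2 * qf A x := by
  have e : (fun i => r * x i) = r • x := rfl
  unfold qf
  rw [e, Matrix.mulVec_smul, smul_dotProduct, dotProduct_smul]
  simp only [smul_eq_mul]
  ring

theorem qf_cont {n : ℕ} (A : Mat n) : Continuous (qf A) := by
  unfold qf dotProduct Matrix.mulVec dotProduct
  fun_prop

theorem small (hE : P_EXT) {N : ℕ} {μ : Br N} {D : Mat N} (hA : Asym μ)
    (hneg : ∀ x, x ≠ 0 → RF μ x < 0) (hell : ∀ x, ell μ D x = 0) (hs : sy D ≠ 0) :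
    ∃ t : ℝ, t ≠ 0 ∧ ∀ X, X ≠ 0 → RF (extc μ D t) X < 0 := by
  set M : Mat N := (1/2 : ℝ) • com D - D.trace • sy D with hM
  have hK : IsCompact (Metric.sphere (0 : Fin N → ℝ) 1) := isCompact_sphere _ _
  have hev : ∀ᶠ t : ℝ in 𝓝 0, ∀ x ∈ Metric.sphere (0 : Fin N → ℝ) 1,
      RF μ x + t ^ 2 * qf M x < 0 := by
    apply hK.eventually_forall_of_forall_eventually
    intro y hy
    have hy0 : y ≠ 0 := by
      intro h0
      rw [h0] at hy
      simp at hy
    have hc : Continuous (fun z : ℝ × (Fin N → ℝ) => RF μ z.2 + z.1 ^ 2 * qf M z.2) := by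
      have h1 := (RF_cont μ).comp (continuous_snd (X := ℝ) (Y := Fin N → ℝ))
      have h2 := (qf_cont M).comp (continuous_snd (X := ℝ) (Y := Fin N → ℝ))
      have h3 : Continuous (fun z : ℝ × (Fin N → ℝ) => z.1 ^ 2) := by fun_prop
      exact h1.add (h3.mul h2)
    have hlt : RF μ y + (0:ℝ) ^ 2 * qf M y < 0 := by
      have := hneg y hy0
      linarith [this, show (0:ℝ) ^ 2 * qf M y = 0 by ring]
    exact (hc.tendsto (0, y)).eventually (gt_mem_nhds hlt)
  obtain ⟨t, ht, ht0⟩ : ∃ t : ℝ, (∀ x ∈ Metric.sphere (0 : Fin N → ℝ) 1,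
      RF μ x + t ^ 2 * qf M x < 0) ∧ 0 < t := by
    have h1 : ∀ᶠ t : ℝ in 𝓝[>] 0, ∀ x ∈ Metric.sphere (0 : Fin N → ℝ) 1,
      RF μ x + t ^ 2 * qf M x < 0 := hev.filter_mono nhdsWithin_le_nhds
    have h2 : ∀ᶠ t : ℝ in 𝓝[>] 0, 0 < t := eventually_mem_nhdsWithin
    exact (h1.and h2).exists
  refine ⟨t, ht0.ne', ?_⟩
  have hx : ∀ x : Fin N → ℝ, x ≠ 0 → RF μ x + t ^ 2 * qf M x < 0 := by
    intro x hx0
    have hn : 0 < ‖x‖ := norm_pos_iff.2 hx0
    have h1 : (fun i => ‖x‖⁻¹ * x i) ∈ Metric.sphere (0 : Fin N → ℝ) 1 := by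
      rw [mem_sphere_zero_iff_norm]
      have e : (fun i => ‖x‖⁻¹ * x i) = ‖x‖⁻¹ • x := rfl
      rw [e, norm_smul, norm_inv, norm_norm]
      exact inv_mul_cancel₀ hn.ne'
    have h2 := ht _ h1
    rw [RF_smul, qf_smul] at h2
    have h3 : (‖x‖⁻¹) ^ 2 * (RF μ x + t ^ 2 * qf M x) < 0 := by linarith
    have h4 : 0 < (‖x‖⁻¹) ^ 2 := by positivity
    by_contra hcon
    rw [not_lt] at hcon
    have := mul_nonneg h4.le hcon
    linarith
  have ha : 0 < ∑ i, ∑ j, (sy D i j) ^ 2 := by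
    apply lt_of_le_of_ne
    · exact Finset.sum_nonneg fun i _ => Finset.sum_nonneg fun j _ => sq_nonneg _
    · intro h0
      apply hs
      ext i j
      have h1 := (Finset.sum_eq_zero_iff_of_nonneg
        (fun i _ => Finset.sum_nonneg fun j _ => sq_nonneg (sy D i j))).1 h0.symm i
        (Finset.mem_univ i)
      have h2 := (Finset.sum_eq_zero_iff_of_nonneg
        (fun j _ => sq_nonneg (sy D i j))).1 h1 j (Finset.mem_univ j)
      exact pow_eq_zero_iff (two_ne_zero) |>.1 h2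
  intro X hX
  rw [hE N μ D t X hA, hell]
  by_cases hx0 : (fun i => X (some i)) = (0 : Fin N → ℝ)
  · have hX0 : X none ≠ 0 := by
      intro h0
      apply hX
      funext o
      cases o with
      | none => exact h0
      | some i => exact congrFun hx0 i
    have e1 : RF μ (fun i => X (some i)) = 0 := by
      rw [hx0]; exact RF_zero μ
    have e2 : qf ((1/2 : ℝ) • com D - D.trace • sy D) (fun i => X (some i)) = 0 := by
      rw [hx0]; unfold qf; simp
    rw [e1, e2]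
    have h1 : 0 < (X none) ^ 2 := by positivity
    have h2 : 0 < (X none) ^ 2 * t ^ 2 * ∑ i, ∑ j, (sy D i j) ^ 2 := by positivity
    linarith
  · have h1 := hx _ hx0
    have h2 : 0 ≤ (X none) ^ 2 * t ^ 2 * ∑ i, ∑ j, (sy D i j) ^ 2 := by positivity
    linarith

theorem asym_act {n : ℕ} (c : Mat n) {μ : Br n} (h : Asym μ) : Asym (act c μ) := by
  intro i j k
  unfold act
  rw [Finset.sum_comm, ← Finset.sum_neg_distrib]
  apply Finset.sum_congr rfl
  intro p _
  rw [← Finset.sum_neg_distrib]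
  apply Finset.sum_congr rfl
  intro q _
  rw [← Finset.sum_neg_distrib]
  apply Finset.sum_congr rfl
  intro r _
  rw [h q p r]
  ring

theorem adm_add {n : ℕ} (μ : Br n) (x y : Fin n → ℝ) : adm μ (x + y) = adm μ x + adm μ y := by
  ext k i
  simp only [adm, Matrix.add_apply, Pi.add_apply, add_mul, Finset.sum_add_distrib]

theorem adm_act {n : ℕ} (c : Mat n) (hc : IsUnit c.det) (μ : Br n) (y : Fin n → ℝ) :
    adm (act c μ) y = conj c (adm μ (c⁻¹ *ᵥ y)) := by
  ext k i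
  have e1 : conj c (adm μ (c⁻¹ *ᵥ y)) k i =
      ∑ q, (∑ r, c k r * ∑ p, (∑ s, c⁻¹ p s * y s) * μ p q r) * c⁻¹ q i := by
    simp only [conj, Matrix.mul_apply, adm, Matrix.mulVec, dotProduct]
  rw [e1]
  simp only [adm, act]
  simp only [Finset.mul_sum, Finset.sum_mul]
  -- LHS : ∑ s, ∑ p, ∑ q, ∑ r ; RHS : ∑ q, ∑ r, ∑ p, ∑ s
  have e2 : ∀ s, ∑ p, ∑ q, ∑ r, y s * (c k r * μ p q r * c⁻¹ p s * c⁻¹ q i) =
      ∑ q, ∑ r, ∑ p, y s * (c k r * μ p q r * c⁻¹ p s * c⁻¹ q i) := by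
    intro s
    rw [Finset.sum_comm]
    exact Finset.sum_congr rfl fun q _ => Finset.sum_comm
  rw [Finset.sum_congr rfl (fun s _ => e2 s), Finset.sum_comm]
  apply Finset.sum_congr rfl
  intro q _
  rw [Finset.sum_comm]
  apply Finset.sum_congr rfl
  intro r _
  rw [Finset.sum_comm]
  apply Finset.sum_congr rfl
  intro p _
  apply Finset.sum_congr rfl
  intro s _
  ring

theorem act_one {n : ℕ} (μ : Br n) : act 1 μ = μ := by
  funext i j k
  simp [act, Matrix.one_apply, Finset.sum_ite_eq, Finset.sum_ite_eq']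

theorem conj_one {n : ℕ} (A : Mat n) : conj 1 A = A := by
  simp [conj]

theorem conj_add {n : ℕ} (c A B : Mat n) : conj c (A + B) = conj c A + conj c B := by
  simp [conj, Matrix.mul_add, Matrix.add_mul]

end ZS

open ZS in
theorem p_ZSTEP (hE : P_EXT) (hS : P_SOL) (hK : P_SKEW) (hO : P_OPENN) : P_ZSTEP := by
  intro N μ D hA hneg hne hker
  obtain ⟨w0, hw0⟩ := hS N μ D hA hneg
  by_cases hsy : sy (D + adm μ w0) = 0
  · -- the skew case
    have hskew : (D + adm μ w0)ᵀ = -(D + adm μ w0) := by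
      unfold sy at hsy
      have h1 : D + adm μ w0 + (D + adm μ w0)ᵀ = 0 := by
        have := smul_eq_zero.1 hsy
        rcases this with h | h
        · norm_num at h
        · exact h
      exact (neg_eq_of_add_eq_zero_right h1).symm
    obtain ⟨k, hk0, hk⟩ := hker w0
    have hk' : (D + adm μ w0) *ᵥ k = 0 := by
      rw [hskew, Matrix.neg_mulVec, neg_eq_zero] at hk
      exact hk
    obtain ⟨σ, hσ, hev⟩ := hK N μ (D + adm μ w0) k hA hneg hskew (hne w0) hk0 hk'
    obtain ⟨ε, hε1, hε2, hε3⟩ := (hev.and (hO N μ σ hneg)).exists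
    set c : Mat N := 1 + ε • σ with hc
    obtain ⟨w', hw'⟩ := hS N (act c μ) (conj c (D + adm μ w0)) (asym_act c hA) hε3
    have e1 : conj c (D + adm μ (w0 + c⁻¹ *ᵥ w')) =
        conj c (D + adm μ w0) + adm (act c μ) w' := by
      rw [adm_add, ← add_assoc, conj_add, adm_act c hε2]
    have e2 : sy (conj c (D + adm μ (w0 + c⁻¹ *ᵥ w'))) ≠ 0 := by
      rw [adm_add, ← add_assoc]
      exact hε1 (c⁻¹ *ᵥ w')
    obtain ⟨t, ht0, ht⟩ := small hE (asym_act c hA) hε3
      (D := conj c (D + adm μ (w0 + c⁻¹ *ᵥ w'))) (by rw [e1]; exact hw') e2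
    exact ⟨c, w0 + c⁻¹ *ᵥ w', t, hε2, ht0, ht⟩
  · obtain ⟨t, ht0, ht⟩ := small hE hA hneg hw0 hsy
    refine ⟨1, w0, t, by simp, ht0, ?_⟩
    rw [act_one, conj_one]
    exact ht

end R877.RN
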